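import Pool.Agent.Z125.UN.Sym
import Pool.Agent.R904.TR.Res

/-!
# Closed-open decompositions and affine bundles, without descent along bundles

The structure `Low` has the closure properties of `Pool.Agent.Z125.UN.Bnd` except for the descent along
affine bundles and tori. The passage from closed subschemes of affine spaces to trilinear forms (adapted
from `Pool.Agent.Z125.UN`) uses only these.
-/

set_option autoImplicit false

open CategoryTheory AlgebraicGeometry MvPolynomial Pool.Agent.Y116.UV Pool.Agent.Z125.UN

namespace Pool.Agent.Run7.h30.EM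

/-- The property `P` of schemes of finite type over `R` is closed under closed-open decompositions, it
is true for the affine spaces, and for the affine bundles of Jouanolou over a scheme for which it is
true. -/
structure Low {R : Type} [CommRing R] (sep : Prop) (P : Sch R → Prop) : Prop where
  iso : ∀ {X Y : Sch R}, FT sep X → Nonempty (X ≅ Y) → P X → P Y
  total : ∀ {Z X U : Sch R} (i : Z ⟶ X) (j : U ⟶ X), FT sep X → IsTriple i j → P Z → P U → P X
  opened : ∀ {Z X U : Sch R} (i : Z ⟶ X) (j : U ⟶ X), FT sep X → IsTriple i j → P Z → P X → P U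
  space : ∀ n : ℕ, P (aff R (MvPolynomial (Fin n) R))
  bundle : ∀ (A : Type) [CommRing A] [Algebra R A] [Algebra.FiniteType R A] (m : ℕ)
    (f : Fin m → A) (U : Sch R) (j : U ⟶ aff R A), IsOpenImmersion j.left →
    Set.range j.left = {x : PrimeSpectrum A | ∃ l, f l ∉ x.asIdeal} → P U → P (aff R (Jou f))

section

variable {R : Type} [CommRing R] {sep : Prop} {P : Sch R → Prop}

lemma low_alg (hP : Low sep P) {A B : Type} [CommRing A] [CommRing B] [Algebra R A] [Algebra R B]
    [Algebra.FiniteType R A] (e : A ≃ₐ[R] B) (h : P (aff R A)) : P (aff R B) :=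
  hP.iso (ft_aff sep) ⟨(affIso e).symm⟩ h

variable (hP : Low sep P)

section split

variable {σ κ : Type} [Finite σ] {G : κ → MvPolynomial σ R} {w e : MvPolynomial σ R}

include hP

lemma pc_total (hc : P (aff R (Pc (adj G e) w))) (ho : P (aff R (Pc G (w * e)))) :
    P (aff R (Pc G w)) :=
  hP.total _ _ (ft_aff sep) (triple_away (pc G w e))
    (low_alg hP (cloE G w e).symm hc) (low_alg hP (opnE G w e).symm ho)

lemma pc_open (hw : P (aff R (Pc G w))) (hc : P (aff R (Pc (adj G e) w))) :
    P (aff R (Pc G (w * e))) :=
  have : Algebra.FiniteType R (Localization.Away (pc G w e)) :=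
    Algebra.FiniteType.trans (S := Pc G w) inferInstance inferInstance
  low_alg hP (opnE G w e) (hP.opened _ _ (ft_aff sep) (triple_away (pc G w e))
    (low_alg hP (cloE G w e).symm hc) hw)

end split

section poly

variable {A : Type} [CommRing A] [Algebra R A] [Algebra.FiniteType R A]

include hP

lemma p_poly_fin (n : ℕ) (h : P (aff R A)) : P (aff R (MvPolynomial (Fin n) A)) := by
  have h1 : IsOpenImmersion (𝟙 (aff R A) : aff R A ⟶ aff R A).left :=
    inferInstanceAs (IsOpenImmersion (𝟙 (aff R A).left))
  have h2 : Set.range (𝟙 (aff R A) : aff R A ⟶ aff R A).left =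
      {x : PrimeSpectrum A | ∃ l, f1 A n l ∉ x.asIdeal} := by
    have h1 : Set.range (𝟙 (aff R A) : aff R A ⟶ aff R A).left = Set.univ := Set.range_id
    have h2 : {x : PrimeSpectrum A | ∃ l, f1 A n l ∉ x.asIdeal} = Set.univ := by
      rw [Set.eq_univ_iff_forall]
      intro x
      exact ⟨0, fun h => x.isPrime.ne_top ((Ideal.eq_top_iff_one _).mpr h)⟩
    exact h1.trans h2.symm
  have h3 := hP.bundle A (n + 1) (f1 A n) (aff R A) (𝟙 _) h1 h2 h
  have : Algebra.FiniteType R (Jou (f1 A n)) :=
    Algebra.FiniteType.trans (S := A) inferInstance inferInstance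
  exact low_alg hP ((jouOne A n).restrictScalars R) h3

lemma p_poly (τ : Type) [Fintype τ] (h : P (aff R A)) : P (aff R (MvPolynomial τ A)) := by
  have : Algebra.FiniteType R (MvPolynomial (Fin (Fintype.card τ)) A) :=
    Algebra.FiniteType.trans (S := A) inferInstance inferInstance
  exact low_alg hP ((renameEquiv A (Fintype.equivFin τ).symm).restrictScalars R)
    (p_poly_fin hP _ h)

lemma pc_poly {σ κ : Type} [Finite σ] {G : κ → MvPolynomial σ R} {w : MvPolynomial σ R} (τ : Type)
    [Fintype τ] (h : P (aff R (Pc G w))) : P (aff R (Pc (rl G τ) (rename Sum.inl w))) := by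
  have : Algebra.FiniteType R (MvPolynomial τ (Pc G w)) :=
    Algebra.FiniteType.trans (S := Pc G w) inferInstance inferInstance
  exact low_alg hP (polyE G w τ) (p_poly hP τ h)

end poly

section pieces

variable {τ : Type} [Finite τ]

include hP

/-- If the property is true for all locally closed subschemes of an affine space, then it is true for
the solutions of systems of linear equations over these. -/
theorem pieces (hN : ∀ (κ : Type) (g : κ → MvPolynomial τ R) (w : MvPolynomial τ R),
      P (aff R (Pc g w))) (n : ℕ) :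
    ∀ (β : Type) (_ : Fintype β), Fintype.card β = n → ∀ (α : Type) (_ : Fintype α) (q : ℕ)
      (κ : Type) (g : κ → MvPolynomial τ R) (w : MvPolynomial τ R)
      (M : α → β → MvPolynomial τ R),
      Nat.card {p : α × β // M p.1 p.2 ≠ 0} ≤ q → P (aff R (Pc (sys g M) (rename Sum.inl w))) := by
  classical
  induction n using Nat.strong_induction_on with
  | _ n ihn =>
  intro β _ hβ α _ q
  induction q with
  | zero =>
    intro κ g w M hM
    have h0 : ∀ i j, M i j = 0 := by
      intro i j
      by_contra h
      have h1 : Nat.card {p : α × β // M p.1 p.2 ≠ 0} = 0 := Nat.le_zero.mp hM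
      rw [Nat.card_eq_zero] at h1
      rcases h1 with h1 | h1
      · exact h1.false ⟨(i, j), h⟩
      · exact h1.not_finite inferInstance
    exact low_alg hP (zeroE g w M h0) (pc_poly hP β (hN κ g w))
  | succ q ihq =>
    intro κ g w M hM
    by_cases h0 : ∀ i j, M i j = 0
    · exact low_alg hP (zeroE g w M h0) (pc_poly hP β (hN κ g w))
    · push Not at h0
      obtain ⟨i, j, hij⟩ := h0
      refine pc_total hP (e := rename Sum.inl (M i j)) ?_ ?_
      · refine low_alg hP (zapE g w M i j) (ihq (Option κ) _ w _ ?_)
        have h1 : Nat.card {p : α × β // zap M i j p.1 p.2 ≠ 0} <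
            Nat.card {p : α × β // M p.1 p.2 ≠ 0} := by
          let f : {p : α × β // zap M i j p.1 p.2 ≠ 0} → {p : α × β // M p.1 p.2 ≠ 0} := fun p =>
            ⟨p.1, by
              have h2 := p.2
              by_cases h3 : p.1.1 = i ∧ p.1.2 = j
              · rw [h3.1, h3.2, zap_self] at h2
                exact absurd rfl h2
              · rwa [zap_ne M i j h3] at h2⟩
          rw [Nat.card_eq_fintype_card, Nat.card_eq_fintype_card]
          refine Fintype.card_lt_of_injective_of_notMem f ?_ (b := ⟨(i, j), hij⟩) ?_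
          · intro x y h
            exact Subtype.ext (congrArg (fun z => z.1) h)
          · rintro ⟨x, hx⟩
            have h3 : x.1 = (i, j) := congrArg (fun z => z.1) hx
            have h2 := x.2
            rw [h3] at h2
            exact h2 (zap_self M i j)
        omega
      · refine low_alg hP (pivE g w M i j) ?_
        have hc : Fintype.card {j' : β // j' ≠ j} = n - 1 := by
          rw [Fintype.card_subtype_compl, Fintype.card_subtype_eq, hβ]
        have hn : 0 < n := by
          rw [← hβ]
          exact Fintype.card_pos_iff.mpr ⟨j⟩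
        have h1 := ihn (n - 1) (by omega) {j' : β // j' ≠ j} inferInstance hc α inferInstance
          _ κ g (w * M i j) (piv M i j) le_rfl
        rwa [map_mul] at h1

end pieces

section gm

include hP

/-- the product with the multiplicative group -/
lemma pc_gm {σ κ : Type} [Finite σ] {G : κ → MvPolynomial σ R} {w : MvPolynomial σ R}
    (h : P (aff R (Pc G w))) : P (aff R (Pc (rl G Unit) (rename Sum.inl w * xs))) :=
  pc_open hP (pc_poly hP Unit h) (low_alg hP (lineE G w) h)

/-- affine spaces -/
lemma pc_space {σ : Type} [Fintype σ] :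
    P (aff R (Pc (fun k : Empty => (k.elim : MvPolynomial σ R)) 1)) := by
  have h1 : P (aff R (MvPolynomial σ R)) :=
    low_alg hP (renameEquiv R (Fintype.equivFin σ).symm) (hP.space _)
  have h2 : Ideal.span (Set.range (fun k : Empty => (k.elim : MvPolynomial σ R))) = ⊥ := by
    rw [Set.range_eq_empty, Ideal.span_empty]
  have h3 : P (aff R (MvPolynomial σ R ⧸
      Ideal.span (Set.range (fun k : Empty => (k.elim : MvPolynomial σ R))))) := by
    rw [h2]
    exact low_alg hP (AlgEquiv.quotientBot R (MvPolynomial σ R)).symm h1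
  exact low_alg hP (oneE _) h3

end gm


section main

include hP

/-- Bilinear systems with `c` variables `z` in the second block. -/
theorem bilin {α β : Type} [Fintype α] [Fintype β] : ∀ (c : ℕ)
    (_ : ∀ c' < c, ∀ (κ : Type) (g : κ → MvPolynomial (Fin c') R) (w : MvPolynomial (Fin c') R),
      P (aff R (Pc g w))) (T : α → β → Fin c → R), P (aff R (Pc (bl T) 1)) := by
  intro c
  induction c with
  | zero =>
    intro _ T
    refine low_alg hP (pcSame ?_ ?_ ?_ ?_) (pc_space hP (σ := β ⊕ Fin 0))
    · exact fun k => k.elim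
    · rw [map_one]
      exact isUnit_one
    · intro i
      rw [bl, bil_apply]
      simp
    · rw [map_one]
      exact isUnit_one
  | succ c ih =>
    intro h T
    refine pc_total hP (e := zl β R c) ?_ ?_
    · exact low_alg hP (hypE T) (ih (fun c' hc' => h c' (by omega)) (tl T))
    · refine low_alg hP (opE T) (pc_gm hP ?_)
      exact pieces hP (h c (by omega)) _ β inferInstance rfl α inferInstance _ Empty (nor c) 1
        (dm T) le_rfl

end main


section grad

include hP

/-- from the closed subscheme `f = 0` to the affine bundle over its complement -/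
lemma to_jou {A : Type} [CommRing A] [Algebra R A] [Algebra.FiniteType R A]
    {m : ℕ} (f : Fin m → A) (hA : P (aff R A)) (hf : P (aff R (A ⧸ Ideal.span (Set.range f)))) :
    P (aff R (Jou f)) := by
  refine hP.bundle A m f (opn (aff R A) (neOpen R f)) (opnMap (aff R A) (neOpen R f)) inferInstance
    (range_opnMap _ _) ?_
  refine hP.opened (affMap (Ideal.Quotient.mkₐ R (Ideal.span (Set.range f))))
    (opnMap (aff R A) (neOpen R f)) (ft_aff sep) ⟨closed_affMap _ (Ideal.Quotient.mkₐ_surjective R _),
      inferInstance, ?_⟩ hf hA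
  rw [range_affMap _ (Ideal.Quotient.mkₐ_surjective R _), range_opnMap]
  ext x
  change (∀ a, Ideal.Quotient.mk (Ideal.span (Set.range f)) a = 0 → a ∈ x.asIdeal) ↔
    ¬ ∃ l, f l ∉ x.asIdeal
  push Not
  constructor
  · intro h l
    exact h (f l) (Ideal.Quotient.eq_zero_iff_mem.mpr (Ideal.subset_span ⟨l, rfl⟩))
  · intro h a ha
    rw [Ideal.Quotient.eq_zero_iff_mem] at ha
    refine (Ideal.span_le.mpr ?_ : Ideal.span (Set.range f) ≤ x.asIdeal) ha
    rintro _ ⟨l, rfl⟩
    exact h l

/-- From the zero set of the bilinear forms `T i` to the hypersurface `T(x, y, z) = 1`. -/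
lemma to_hyp {a : ℕ} {β γ : Type} [Fintype β] [Fintype γ] (T : Fin a → β → γ → R)
    (h : P (aff R (Pc (bl T) 1))) : P (aff R (Hyp T)) := by
  have hA : P (aff R (MvPolynomial (β ⊕ γ) R)) :=
    low_alg hP (renameEquiv R (Fintype.equivFin (β ⊕ γ)).symm) (hP.space _)
  have h1 := to_jou hP (bl T) hA (low_alg hP (oneE (bl T)).symm h)
  have h2 : Algebra.FiniteType R (Jou (bl T)) :=
    Algebra.FiniteType.trans (S := MvPolynomial (β ⊕ γ) R) inferInstance inferInstance
  exact low_alg hP (hypEquiv T).symm h1

section

variable {N : ℕ} (hA : ∀ I : Ideal (MvPolynomial (Fin N) R),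
  P (aff R (MvPolynomial (Fin N) R ⧸ I)))

include hA

lemma of_surj {A : Type} [CommRing A] [Algebra R A] (φ : MvPolynomial (Fin N) R →ₐ[R] A)
    (hφ : Function.Surjective φ) : P (aff R A) :=
  low_alg hP (Ideal.quotientKerAlgEquivOfSurjective (f := φ) hφ) (hA _)

lemma one_piece {c : ℕ} (hc : c ≤ N) (κ : Type) (g : κ → MvPolynomial (Fin c) R) :
    P (aff R (Pc g 1)) := by
  let ρ : MvPolynomial (Fin N) R →ₐ[R] MvPolynomial (Fin c) R :=
    aeval fun i => if h : i.1 < c then X ⟨i.1, h⟩ else 0
  have hρ : Function.Surjective ρ := by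
    intro p
    refine ⟨rename (Fin.castLE hc) p, ?_⟩
    change aeval _ (rename (Fin.castLE hc) p) = p
    rw [aeval_rename]
    have h : ((fun i : Fin N => if h : i.1 < c then (X ⟨i.1, h⟩ : MvPolynomial (Fin c) R) else 0) ∘
        Fin.castLE hc) = X := by
      funext i
      exact dif_pos i.2
    rw [h, aeval_X_left_apply]
  refine of_surj hP hA (((oneE g).toAlgHom.comp
    (Ideal.Quotient.mkₐ R (Ideal.span (Set.range g)))).comp ρ) ?_
  exact ((oneE g).surjective.comp (Ideal.Quotient.mkₐ_surjective R _)).comp hρ

lemma piece {c : ℕ} (hc : c ≤ N) (κ : Type) (g : κ → MvPolynomial (Fin c) R)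
    (w : MvPolynomial (Fin c) R) : P (aff R (Pc g w)) := by
  have h := pc_open hP (one_piece hP hA hc κ g) (one_piece hP hA hc (Option κ) (adj g w))
  rwa [one_mul] at h

/-- from closed subschemes of affine spaces to trilinear forms -/
theorem to_tri (a b c : ℕ) (hc : c ≤ N + 1) (T : Fin a → Fin b → Fin c → R) :
    P (aff R (Hyp T)) :=
  to_hyp hP T (bilin hP c (fun c' hc' κ g w => piece hP hA (by omega) κ g w) T)

end



/-- a short block in any place -/
lemma of_block {c : ℕ} (h : ∀ (a b c' : ℕ), c' ≤ c → ∀ T : Fin a → Fin b → Fin c' → R,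
    P (aff R (Hyp T))) {a b d : ℕ} (T : Fin a → Fin b → Fin d → R) (hm : a ≤ c ∨ b ≤ c ∨ d ≤ c) :
    P (hypS T) := by
  rcases hm with hm | hm | hm
  · have e1 := swapL T
    have e2 := swapR fun j i k => T i j k
    exact low_alg hP (e1.trans e2).symm (h b d a hm fun j k i => T i j k)
  · exact low_alg hP (swapR T).symm (h a d b hm fun i k j => T i j k)
  · exact h a b d hm T



end grad

end

end Pool.Agent.Run7.h30.EM
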