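import Pool.Agent.Run7.h30.EM.Thy
import Pool.Agent.Run7.h30.EM.Low
import Pool.Agent.Q282.UZ.Sys

/-!
# Closure properties
-/

set_option autoImplicit false

open CategoryTheory CategoryTheory.Limits AlgebraicGeometry MvPolynomial
open Pool.Agent.Y116.UV Pool.Agent.R904.TR Pool.Agent.Z125.UN Pool.Agent.Q282.UK Pool.Agent.Q282.UZ

namespace Pool.Agent.Run7.h30.EM

section serre

variable {S : ∀ (G : Type) [AddCommGroup G], Prop} (hS : IsSerre S)

include hS

lemma serre_inj {A B : Type} [AddCommGroup A] [AddCommGroup B] (f : A →+ B)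
    (hf : Function.Injective f) (h : S B) : S A := by
  refine hS.mid (0 : PUnit →+ A) f ?_ hS.zero h
  intro y
  constructor
  · intro hy
    exact ⟨PUnit.unit, by rw [AddMonoidHom.zero_apply]; exact (hf (hy.trans (map_zero f).symm)).symm⟩
  · rintro ⟨x, rfl⟩
    simp

lemma serre_surj {A B : Type} [AddCommGroup A] [AddCommGroup B] (f : A →+ B)
    (hf : Function.Surjective f) (h : S A) : S B := by
  refine hS.mid f (0 : B →+ PUnit) ?_ h hS.zero
  intro y
  exact ⟨fun _ => hf y, fun _ => rfl⟩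

lemma serre_equiv {A B : Type} [AddCommGroup A] [AddCommGroup B] (e : Nonempty (A ≃+ B))
    (h : S A) : S B := by
  obtain ⟨e⟩ := e
  exact serre_surj hS e.toAddMonoidHom e.surjective h

end serre

lemma sub_mid {A B C : Type} [AddCommGroup A] [AddCommGroup B] [AddCommGroup C] (f : A →+ B)
    (g : B →+ C) (h : Function.Exact f g) (hA : Subsingleton A) (hC : Subsingleton C) :
    Subsingleton B := by
  refine ⟨fun x y => ?_⟩
  have key : ∀ z : B, z = 0 := by
    intro z
    obtain ⟨w, rfl⟩ := (h z).mp (Subsingleton.elim _ _)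
    rw [Subsingleton.elim w 0, map_zero]
  rw [key x, key y]

lemma empty_jou {A : Type} [CommRing A] (f : Fin 0 → A) : IsEmpty (jouS f) := by
  have h : Subsingleton (Jou f) := by
    rw [Ideal.Quotient.subsingleton_iff]
    rw [Ideal.eq_top_iff_one]
    have h1 : (∑ l, C (f l) * X l - 1 : MvPolynomial (Fin 0) A) = -1 := by simp
    rw [h1]
    have h2 := Ideal.neg_mem_iff (Ideal.span {(-1 : MvPolynomial (Fin 0) A)}) |>.mpr
      (Ideal.mem_span_singleton_self _)
    rwa [neg_neg] at h2
  exact inferInstanceAs (IsEmpty (PrimeSpectrum (Jou f)))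

section

variable {R : Type} [CommRing R] [hR : Algebra.FiniteType ℤ R]

include hR

lemma arith_of_ft {X : Sch R} (h : FT True X) : IsArithmetic X.left := by
  have e : specZIsTerminal.from X.left = X.hom ≫ toInt R := specZIsTerminal.hom_ext _ _
  have h1 := ft_int h
  refine ⟨?_, ?_, ?_⟩
  · rw [e]
    exact h1.1
  · rw [e]
    exact h1.2
  · rw [e]
    have h2 := h.separated trivial
    have h3 : IsSeparated (toInt R) := by
      unfold toInt
      infer_instance
    exact MorphismProperty.comp_mem _ X.hom (toInt R) h2 h3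

variable (T : EtMot) {n : ℤ}

/-- all groups of weight `n` are in the class -/
def In (S : ∀ (G : Type) [AddCommGroup G], Prop) (n : ℤ) (X : Scheme.{0}) : Prop :=
  ∀ i : ℤ, S (T.H i n X)

variable {S : ∀ (G : Type) [AddCommGroup G], Prop} (hS : IsSerre S)

include hS

theorem clo_in (hn : n ≤ 0) : Clo True fun X : Sch R => In T S n X.left where
  iso {X Y} _ e h i := by
    obtain ⟨e⟩ := e
    exact serre_equiv hS (T.iso i n _ _ ((Over.forget _).mapIso e)) (h i)
  total {Z X U} i j h ht hZ hU q := by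
    obtain ⟨a, b, c, h1, h2, h3⟩ := T.longSeq hn i.left j.left
      (arith_of_ft h) ⟨ht.closed, ht.opened, ht.compl⟩
    exact hS.mid (a q) (b q) (h1 q) (hZ q) (hU q)
  opened {Z X U} i j h ht hZ hX q := by
    obtain ⟨a, b, c, h1, h2, h3⟩ := T.longSeq hn i.left j.left
      (arith_of_ft h) ⟨ht.closed, ht.opened, ht.compl⟩
    exact hS.mid (b q) (c q) (h2 q) (hX q) (hZ (q + 1))
  torus A _ _ _ h q := by
    have := ft_trans (R := R) A
    obtain ⟨s, r, hsr⟩ := T.torus (q - 1) n A hn
    have h1 : S (T.H (q - 1 + 1) n (sp A)) :=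
      serre_inj hS s (Function.LeftInverse.injective hsr) (h (q - 1))
    rwa [sub_add_cancel] at h1

omit hS

/-- boundedness -/
def Bdd (n : ℤ) (X : Scheme.{0}) : Prop :=
  ∃ i₀ : ℤ, ∀ i : ℤ, i ≤ i₀ → Subsingleton (T.H i n X)

theorem clo_bdd (hn : n ≤ 0) : Clo True fun X : Sch R => Bdd T n X.left where
  iso {X Y} _ e h := by
    obtain ⟨e⟩ := e
    obtain ⟨i₀, h⟩ := h
    refine ⟨i₀, fun i hi => ?_⟩
    obtain ⟨e'⟩ := T.iso i n _ _ ((Over.forget _).mapIso e)
    have : Subsingleton (T.H i n ((Over.forget _).obj X)) := h i hi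
    exact e'.symm.toEquiv.subsingleton
  total {Z X U} i j h ht hZ hU := by
    obtain ⟨a, b, c, h1, h2, h3⟩ := T.longSeq hn i.left j.left
      (arith_of_ft h) ⟨ht.closed, ht.opened, ht.compl⟩
    obtain ⟨p, hp⟩ := hZ
    obtain ⟨q, hq⟩ := hU
    refine ⟨min p q, fun r hr => ?_⟩
    exact sub_mid (a r) (b r) (h1 r) (hp r (by omega)) (hq r (by omega))
  opened {Z X U} i j h ht hZ hX := by
    obtain ⟨a, b, c, h1, h2, h3⟩ := T.longSeq hn i.left j.left
      (arith_of_ft h) ⟨ht.closed, ht.opened, ht.compl⟩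
    obtain ⟨p, hp⟩ := hZ
    obtain ⟨q, hq⟩ := hX
    refine ⟨min (p - 1) q, fun r hr => ?_⟩
    exact sub_mid (b r) (c r) (h2 r) (hq r (by omega)) (hp (r + 1) (by omega))
  torus A _ _ _ h := by
    have := ft_trans (R := R) A
    obtain ⟨p, hp⟩ := h
    refine ⟨p + 1, fun q hq => ?_⟩
    obtain ⟨s, r, hsr⟩ := T.torus (q - 1) n A hn
    have h0 : Subsingleton (T.H (q - 1) n (laurS A)) := hp (q - 1) (by omega)
    have h1 : Subsingleton (T.H (q - 1 + 1) n (sp A)) :=
      (Function.LeftInverse.injective hsr).subsingleton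
    rwa [sub_add_cancel] at h1

/-- all groups of negative weight are in the class -/
def Neg (S : ∀ (G : Type) [AddCommGroup G], Prop) (X : Scheme.{0}) : Prop :=
  ∀ i n : ℤ, n < 0 → S (T.H i n X)

include hS

theorem low_neg (h0 : Neg T S (Spec (.of R))) : Low True fun X : Sch R => Neg T S X.left where
  iso {X Y} _ e h i n hn := by
    obtain ⟨e⟩ := e
    exact serre_equiv hS (T.iso i n _ _ ((Over.forget _).mapIso e)) (h i n hn)
  total {Z X U} i j h ht hZ hU q n hn := by
    obtain ⟨a, b, c, h1, h2, h3⟩ := T.longSeq hn.le i.left j.left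
      (arith_of_ft h) ⟨ht.closed, ht.opened, ht.compl⟩
    exact hS.mid (a q) (b q) (h1 q) (hZ q n hn) (hU q n hn)
  opened {Z X U} i j h ht hZ hX q n hn := by
    obtain ⟨a, b, c, h1, h2, h3⟩ := T.longSeq hn.le i.left j.left
      (arith_of_ft h) ⟨ht.closed, ht.opened, ht.compl⟩
    exact hS.mid (b q) (c q) (h2 q) (hX q n hn) (hZ (q + 1) n hn)
  space m i n hn := by
    obtain ⟨e⟩ := T.bundle i n R m (f1 R m) (Spec (.of R)) (𝟙 _) hn.le ⟨inferInstance, range_id m⟩
    have h2 := serre_equiv hS ⟨e.symm⟩ (h0 (i + 2 * (m : ℤ)) (n - (m : ℤ)) (by omega))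
    exact serre_equiv hS (T.iso i n _ _ ((Over.forget _).mapIso (affIso (jouOne R m)).symm)) h2
  bundle A _ _ _ m f U j hj hr h i n hn := by
    have := ft_trans (R := R) A
    cases m with
    | zero =>
      have h1 : IsEmpty (jouS f) := empty_jou f
      have h2 : IsEmpty U.left := by
        refine ⟨fun u => ?_⟩
        have h3 : j.left u ∈ Set.range j.left := ⟨u, rfl⟩
        rw [hr] at h3
        obtain ⟨l, _⟩ := h3
        exact l.elim0
      have e : U.left ≅ jouS f := (isInitialOfIsEmpty (X := U.left)).uniqueUpToIso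
        (isInitialOfIsEmpty (X := jouS f))
      exact serre_equiv hS (T.iso i n _ _ e) (h i n hn)
    | succ m =>
      obtain ⟨e⟩ := T.bundle i n A m f U.left j.left hn.le ⟨hj, hr⟩
      exact serre_equiv hS ⟨e.symm⟩ (h _ _ (by omega))

end

end Pool.Agent.Run7.h30.EM
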