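import Pool.Agent.Y116.UV.Geo

/-!
# Dévissage: noetherian induction with closed-open decompositions only
-/

set_option autoImplicit false

open CategoryTheory AlgebraicGeometry Pool.Agent.Y116.UV

namespace Pool.Agent.Run7.h30.EM

/-- The steps of the dévissage: isomorphisms, unions of a closed subscheme and its complement, empty
schemes, and for every integral affine scheme some non-empty open subscheme. -/
structure Dev {R : Type} [CommRing R] (sep : Prop) (P : Sch R → Prop) : Prop where
  iso : ∀ {X Y : Sch R}, FT sep X → Nonempty (X ≅ Y) → P X → P Y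
  total : ∀ {Z X U : Sch R} (i : Z ⟶ X) (j : U ⟶ X), FT sep X → IsTriple i j → P Z → P U → P X
  empty : ∀ (B : Type) [CommRing B] [Algebra R B], Subsingleton B → P (aff R B)
  generic : ∀ (B : Type) [CommRing B] [IsDomain B] [Algebra R B] [Algebra.FiniteType R B],
    ∃ w : B, w ≠ 0 ∧ P (aff R (Localization.Away w))

section

variable {R : Type} [CommRing R] {sep : Prop} {P : Sch R → Prop} (hP : Dev sep P)

include hP

lemma dev_alg {A B : Type} [CommRing A] [CommRing B] [Algebra R A] [Algebra R B]
    [Algebra.FiniteType R A] (e : A ≃ₐ[R] B) (h : P (aff R A)) : P (aff R B) :=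
  hP.iso (ft_aff sep) ⟨(affIso e).symm⟩ h

lemma dev_quot {A : Type} [CommRing A] [Algebra R A] [Algebra.FiniteType R A] (I : Ideal A) (a : A)
    (h : P (aff R (A ⧸ (I ⊔ Ideal.span {a})))) :
    P (aff R ((A ⧸ I) ⧸ Ideal.span {Ideal.Quotient.mk I a})) := by
  have h2 : Ideal.map (Ideal.Quotient.mkₐ R I) (Ideal.span {a}) =
      Ideal.span {Ideal.Quotient.mk I a} := by
    rw [Ideal.map_span, Set.image_singleton]
    rfl
  rw [← h2]
  exact dev_alg hP (DoubleQuot.quotQuotEquivQuotSupₐ R I (Ideal.span {a})).symm h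

omit hP in
/-- If `p` is the annihilator of `w ∉ p`, then `C_w = (C / p)_w`. -/
lemma away_of_ann {C : Type} [CommRing C] (p : Ideal C) [hp : p.IsPrime] (w : C)
    (hw : ∀ c, c ∈ p ↔ c * w = 0) :
    IsLocalization.Away w (Localization.Away (Ideal.Quotient.mk p w)) := by
  let B := Localization.Away (Ideal.Quotient.mk p w)
  have halg : ∀ c : C, algebraMap C B c = algebraMap (C ⧸ p) B (Ideal.Quotient.mk p c) := fun c =>
    IsScalarTower.algebraMap_apply C (C ⧸ p) B c
  refine ⟨?_, ?_, ?_⟩
  · rintro ⟨_, n, rfl⟩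
    change IsUnit (algebraMap C B (w ^ n))
    rw [map_pow, halg]
    exact (IsLocalization.Away.algebraMap_isUnit (Ideal.Quotient.mk p w)).pow n
  · intro z
    obtain ⟨⟨y, ⟨_, n, rfl⟩⟩, hy⟩ := IsLocalization.surj
      (Submonoid.powers (Ideal.Quotient.mk p w)) z
    obtain ⟨y, rfl⟩ := Ideal.Quotient.mk_surjective y
    refine ⟨(y, ⟨w ^ n, n, rfl⟩), ?_⟩
    change z * algebraMap C B (w ^ n) = algebraMap C B y
    rw [halg, halg, map_pow]
    exact hy
  · intro x y hxy
    rw [halg, halg] at hxy
    obtain ⟨⟨_, n, rfl⟩, hc⟩ := (IsLocalization.eq_iff_exists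
      (Submonoid.powers (Ideal.Quotient.mk p w)) B).mp hxy
    have h1 : w ^ n * (x - y) ∈ p := by
      rw [← Ideal.Quotient.eq_zero_iff_mem, mul_sub, map_sub, map_mul, map_mul, map_pow]
      exact sub_eq_zero.mpr hc
    rw [hw] at h1
    refine ⟨⟨w ^ (n + 1), n + 1, rfl⟩, ?_⟩
    change w ^ (n + 1) * x = w ^ (n + 1) * y
    linear_combination h1

theorem dev_affine [IsNoetherianRing R] (A : Type) [CommRing A] [Algebra R A]
    [Algebra.FiniteType R A] : P (aff R A) := by
  have hN : IsNoetherianRing A := Algebra.FiniteType.isNoetherianRing R A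
  have key : ∀ I : Ideal A, P (aff R (A ⧸ I)) := by
    intro I
    induction I using IsNoetherian.induction with
    | hgt I ih =>
    by_cases hI : I = ⊤
    · subst hI
      exact hP.empty _ (Ideal.Quotient.subsingleton_iff.mpr rfl)
    have hq : ∀ v : A ⧸ I, v ≠ 0 → P (aff R ((A ⧸ I) ⧸ Ideal.span {v})) := by
      intro v hv
      obtain ⟨v, rfl⟩ := Ideal.Quotient.mk_surjective v
      refine dev_quot hP I v (ih _ (lt_of_le_of_ne le_sup_left fun h => hv ?_))
      rw [Ideal.Quotient.eq_zero_iff_mem, h]
      exact Ideal.mem_sup_right (Ideal.mem_span_singleton_self v)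
    have hC : Nontrivial (A ⧸ I) := Ideal.Quotient.nontrivial_iff.mpr hI
    obtain ⟨p, hp⟩ := associatedPrimes.nonempty (A ⧸ I) (A ⧸ I)
    rw [AssociatedPrimes.mem_iff, isAssociatedPrime_iff] at hp
    obtain ⟨hp1, w, hw⟩ := hp
    have hmem : ∀ c, c ∈ p ↔ c * w = 0 := by
      intro c
      rw [hw, Submodule.mem_colon_singleton, Submodule.mem_bot, smul_eq_mul]
    have hw0 : w ≠ 0 := by
      rintro rfl
      exact hp1.ne_top ((Ideal.eq_top_iff_one _).mpr ((hmem 1).mpr (mul_zero _)))
    by_cases h2 : w * w = 0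
    · refine hP.total _ _ (ft_aff sep) (triple_away w) (hq w hw0) (hP.empty _ ?_)
      have h3 : (0 : A ⧸ I) ∈ Submonoid.powers w := ⟨2, by change w ^ 2 = 0; rw [pow_two, h2]⟩
      exact IsLocalization.subsingleton (M := Submonoid.powers w) h3
    · have hwp : w ∉ p := fun h => h2 ((hmem w).mp h)
      have hwp' : Ideal.Quotient.mk p w ≠ 0 := fun h => hwp (Ideal.Quotient.eq_zero_iff_mem.mp h)
      let B := Localization.Away (Ideal.Quotient.mk p w)
      have hBd : IsDomain B := IsLocalization.isDomain_localization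
        (powers_le_nonZeroDivisors_of_noZeroDivisors hwp')
      have hBf : Algebra.FiniteType R B :=
        Algebra.FiniteType.trans (S := (A ⧸ I) ⧸ p) inferInstance inferInstance
      have hBl : IsLocalization.Away w B := away_of_ann p w hmem
      obtain ⟨b, hb, hPb⟩ := hP.generic B
      obtain ⟨⟨y, ⟨_, n, rfl⟩⟩, hy⟩ := IsLocalization.surj (Submonoid.powers w) b
      have hu : IsUnit (algebraMap (A ⧸ I) B (w ^ n)) := by
        rw [map_pow]
        exact (IsLocalization.Away.algebraMap_isUnit w).pow n
      have hass : Associated (algebraMap (A ⧸ I) B y) b := by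
        have h4 : Associated b (algebraMap (A ⧸ I) B y) := ⟨hu.unit, hy⟩
        exact h4.symm
      have hloc : IsLocalization.Away (w * y) (Localization.Away b) :=
        IsLocalization.Away.mul_of_associated w y b hass
      have hv : w * y ≠ 0 := by
        intro h
        have h5 : algebraMap (A ⧸ I) B (w * y) = 0 := by rw [h, map_zero]
        rw [map_mul] at h5
        rcases mul_eq_zero.mp h5 with h5 | h5
        · exact (IsLocalization.Away.algebraMap_isUnit (S := B) w).ne_zero h5
        · rw [← hy] at h5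
          rcases mul_eq_zero.mp h5 with h5 | h5
          · exact hb h5
          · exact hu.ne_zero h5
      let e : Localization.Away (w * y) ≃ₐ[A ⧸ I] Localization.Away b :=
        IsLocalization.algEquiv (Submonoid.powers (w * y)) _ _
      have hft : Algebra.FiniteType R (Localization.Away b) :=
        Algebra.FiniteType.trans (S := B) inferInstance inferInstance
      exact hP.total _ _ (ft_aff sep) (triple_away (w * y)) (hq _ hv)
        (dev_alg hP (e.restrictScalars R).symm hPb)
  have h := key ⊥
  exact dev_alg hP (AlgEquiv.quotientBot R A) h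

theorem Dev.all [IsNoetherianRing R] (X : Sch R) (hX : FT sep X) : P X :=
  of_affine' hP.iso hP.total (fun A _ _ _ => dev_affine hP A) X hX

end

end Pool.Agent.Run7.h30.EM
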