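import Pool.Agent.Run7.h30.EM.Clos

/-!
# Three-term bilinear systems, weight `-1`, and short blocks
-/

set_option autoImplicit false

open CategoryTheory CategoryTheory.Limits AlgebraicGeometry MvPolynomial
open Pool.Agent.Y116.UV Pool.Agent.R904.TR Pool.Agent.Z125.UN Pool.Agent.Q282.UK Pool.Agent.Q282.UZ
open Pool.Agent.R904.CU

namespace Pool.Agent.Run7.h30.EM

theorem fg_serre : IsSerre fun (G : Type) [AddCommGroup G] => AddGroup.FG G where
  zero := inferInstance
  mid f g h hA hC := fg_exact f g h hA hC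

section quot

variable {R : Type} [CommRing R] (hR : Function.Surjective (Int.cast : ℤ → R))

include hR

lemma ft_of_surj : Algebra.FiniteType ℤ R :=
  Algebra.FiniteType.of_surjective (Algebra.ofId ℤ R) (fun x => by
    obtain ⟨n, hn⟩ := hR x
    exact ⟨n, by rw [← hn]; exact (Algebra.ofId ℤ R).commutes n⟩)

lemma noeth_of_surj : IsNoetherianRing R :=
  isNoetherianRing_of_surjective ℤ R (Int.castRingHom R) hR

variable (T : EtMot) (S : ∀ (G : Type) [AddCommGroup G], Prop) (hS : IsSerre S) (n : ℤ) (hn : n ≤ 0)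

include hn

theorem iff_bdd : (∀ X : Sch R, FT True X → Bdd T n X.left) ↔
    ForThreeTerms fun X : Sch R => Bdd T n X.left := by
  have := ft_of_surj hR
  have := noeth_of_surj hR
  exact three_iff (short_presents hR) (clo_bdd T hn)

include hS

theorem iff_in : (∀ X : Sch R, FT True X → In T S n X.left) ↔
    ForThreeTerms fun X : Sch R => In T S n X.left := by
  have := ft_of_surj hR
  have := noeth_of_surj hR
  exact three_iff (short_presents hR) (clo_in T hS hn)

end quot

lemma ft_arith {X : Scheme.{0}} (h : IsArithmetic X) :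
    FT True (Over.mk (specZIsTerminal.from X) : Sch ℤ) :=
  ⟨h.locallyOfFiniteType, h.quasiCompact, fun _ => h.separated⟩

lemma sys_ft {R : Type} [CommRing R] {a b c : ℕ} (E : Fin c → Finset (Fin a × Fin b)) :
    FT True (sysS R E) := ft_aff True

lemma aff_ft {R A : Type} [CommRing R] [CommRing A] [Algebra R A] [Algebra.FiniteType R A] :
    FT True (aff R A) := ft_aff True

section weight

variable (T : EtMot)

/-- weight `n - m` from weight `n` -/
lemma weight_sp {A : Type} [CommRing A] [Algebra.FiniteType ℤ A] (n : ℤ) (hn : n ≤ 0) (m : ℕ)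
    (h : ∀ (B : Type) [CommRing B] [Algebra.FiniteType ℤ B] (i : ℤ), AddGroup.FG (T.H i n (sp B)))
    (i : ℤ) : AddGroup.FG (T.H i (n - (m : ℤ)) (sp A)) := by
  have e := T.bundle (i - 2 * (m : ℤ)) n A m (f1 A m) (sp A) (𝟙 _) hn ⟨inferInstance, range_id m⟩
  rw [sub_add_cancel] at e
  have := ft_trans (R := A) (Jou (f1 A m))
  exact fg_equiv e (h (Jou (f1 A m)) _)

theorem weight_iff :
    (∀ X : Scheme.{0}, IsArithmetic X → ∀ i n : ℤ, n < 0 → AddGroup.FG (T.H i n X)) ↔
      ForThreeTerms fun X : Sch ℤ => ∀ i : ℤ, AddGroup.FG (T.H i (-1) X.left) := by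
  have hZ : Function.Surjective (Int.cast : ℤ → ℤ) := fun x => ⟨x, rfl⟩
  constructor
  · intro h a b c E _ i
    exact h _ (arith_of_ft (R := ℤ) (sys_ft E)) i (-1) (by omega)
  · intro h
    have h1 : ∀ X : Sch ℤ, FT True X → In T (fun G _ => AddGroup.FG G) (-1) X.left :=
      (iff_in hZ T _ fg_serre (-1) (by omega)).mpr h
    have h2 : ∀ (B : Type) [CommRing B] [Algebra.FiniteType ℤ B] (i : ℤ),
        AddGroup.FG (T.H i (-1) (sp B)) := fun B _ _ i => h1 (aff ℤ B) (ft_aff True) i
    intro X hX i n hn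
    obtain ⟨m, hm⟩ : ∃ m : ℕ, n = -1 - (m : ℤ) := ⟨(-1 - n).toNat, by omega⟩
    have h3 : ∀ X : Sch ℤ, FT True X → In T (fun G _ => AddGroup.FG G) n X.left := by
      refine (iff_in hZ T _ fg_serre n hn.le).mpr ?_
      intro a b c E _ i
      rw [hm]
      have := ft_trans (R := ℤ) (MvPolynomial (Fin a ⊕ Fin b) ℤ ⧸
        Ideal.span (Set.range fun l => few ℤ (E l)))
      exact weight_sp T (-1) (by omega) m h2 i
    exact h3 _ (ft_arith hX) i

/-- an unbounded set of degrees suffices -/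
theorem degrees (D : Set ℤ) (hD : ∀ m : ℤ, ∃ i ∈ D, i ≤ m)
    (h : ∀ (A : Type) [CommRing A] [Algebra.FiniteType ℤ A], ∀ i ∈ D,
      AddGroup.FG (T.H i (-1) (sp A))) (A : Type) [CommRing A] [Algebra.FiniteType ℤ A] (i : ℤ) :
    AddGroup.FG (T.H i (-1) (sp A)) := by
  obtain ⟨j, hj, hji⟩ := hD i
  obtain ⟨r, rfl⟩ : ∃ r : ℕ, i = j + (r : ℤ) := ⟨(i - j).toNat, by omega⟩
  clear hji
  induction r generalizing A with
  | zero =>
    rw [Nat.cast_zero, add_zero]
    exact h A j hj
  | succ r ih =>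
    obtain ⟨s, p, hsp⟩ := T.torus (j + (r : ℤ)) (-1) A (by omega)
    have : Algebra.FiniteType A (LaurentPolynomial A) :=
      inferInstanceAs (Algebra.FiniteType A (AddMonoidAlgebra A ℤ))
    have := ft_trans (R := A) (LaurentPolynomial A)
    have h1 := serre_inj fg_serre s (Function.LeftInverse.injective hsp) (ih (LaurentPolynomial A))
    have e : j + ((r + 1 : ℕ) : ℤ) = j + (r : ℤ) + 1 := by push_cast; ring
    rw [e]
    exact h1

end weight

section low

variable (T : EtMot)

lemma neg_one {R : Type} [CommRing R] [hR : Algebra.FiniteType ℤ R] (h : ringKrullDim R ≤ 1) :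
    Neg T (fun G _ => AddGroup.FG G) (Spec (.of R)) := by
  intro i n hn
  refine T.curves i n _ hn ?_ ?_
  · exact arith_of_ft (R := ℤ) (X := aff ℤ R) (ft_aff True)
  · rw [dim_spec]
    exact h

theorem dim_block (k : Type) [Field k] [Finite k] (d : ℕ)
    (h : ∀ X : Sch k, FT True X → topologicalKrullDim X.left ≤ d →
      ∀ i n : ℤ, n < 0 → AddGroup.FG (T.H i n X.left)) {a b c : ℕ}
    (F : Fin a → Fin b → Fin c → k) (hm : a ≤ d + 2 ∨ b ≤ d + 2 ∨ c ≤ d + 2) (i n : ℤ)
    (hn : n < 0) : AddGroup.FG (T.H i n (hypS F).left) := by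
  have hB : Low True fun X : Sch k => Neg T (fun G _ => AddGroup.FG G) X.left :=
    low_neg T fg_serre (neg_one T (by rw [ringKrullDim_eq_zero_of_field]; exact zero_le_one))
  have h2 : ∀ I : Ideal (MvPolynomial (Fin (d + 1)) k),
      Neg T (fun G _ => AddGroup.FG G) (aff k (MvPolynomial (Fin (d + 1)) k ⧸ I)).left := by
    intro I
    by_cases hI : I = ⊥
    · subst hI
      exact low_alg hB (AlgEquiv.quotientBot k _).symm (hB.space (d + 1))
    · exact h _ (ft_aff True) (by rw [topDim_aff]; exact dim_quot I hI)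
  exact of_block hB (fun a b c' hc' F => to_tri hB h2 a b c' hc' F) F hm i n hn

theorem three_block (k : Type) [Field k] [Finite k] {a b c : ℕ}
    (F : Fin a → Fin b → Fin c → k) (hm : a ≤ 3 ∨ b ≤ 3 ∨ c ≤ 3) (i n : ℤ)
    (hn : n < 0) : AddGroup.FG (T.H i n (hypS F).left) := by
  refine dim_block T k 1 (fun X hX hd i n hn => ?_) F hm i n hn
  exact T.curves i n _ hn (arith_of_ft hX) (by exact_mod_cast hd)

theorem two_block (R : Type) [CommRing R] [IsDomain R] [hR : Algebra.FiniteType ℤ R]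
    (h : ringKrullDim R ≤ 1) {a b c : ℕ} (F : Fin a → Fin b → Fin c → R)
    (hm : a ≤ 2 ∨ b ≤ 2 ∨ c ≤ 2) (i n : ℤ) (hn : n < 0) :
    AddGroup.FG (T.H i n (hypS F).left) := by
  have hN : IsNoetherianRing R := Algebra.FiniteType.isNoetherianRing ℤ R
  have hB : Low True fun X : Sch R => Neg T (fun G _ => AddGroup.FG G) X.left :=
    low_neg T fg_serre (neg_one T h)
  have hA : ∀ I : Ideal (MvPolynomial (Fin 1) R),
      Neg T (fun G _ => AddGroup.FG G) (aff R (MvPolynomial (Fin 1) R ⧸ I)).left := by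
    intro I
    by_cases hI : I = ⊥
    · subst hI
      exact low_alg hB (AlgEquiv.quotientBot R _).symm (hB.space 1)
    · have := ft_trans (R := R) (MvPolynomial (Fin 1) R ⧸ I)
      exact neg_one T (dim_quot_poly R h I hI)
  exact of_block hB (fun a b c' hc' F => to_tri hB hA a b c' hc' F) F hm i n hn

end low

end Pool.Agent.Run7.h30.EM
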