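import Pool.Agent.R904.TR.Defs

/-!
# Étale motivic cohomology of arithmetic schemes in weights `n ≤ 0`, formally
-/

set_option autoImplicit false

open CategoryTheory CategoryTheory.Limits AlgebraicGeometry MvPolynomial
open Pool.Agent.Y116.UV Pool.Agent.R904.TR

namespace Pool.Agent.Run7.h30.EM

/-- `X` is an arithmetic scheme: separated and of finite type over `Spec ℤ`. -/
structure IsArithmetic (X : Scheme.{0}) : Prop where
  locallyOfFiniteType : LocallyOfFiniteType (specZIsTerminal.from X)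
  quasiCompact : QuasiCompact (specZIsTerminal.from X)
  separated : IsSeparated (specZIsTerminal.from X)

/-- There is a long exact sequence
`⋯ → H^q(Z) → H^q(X) → H^q(U) → H^(q+1)(Z) → ⋯`. -/
def LongSeq (H : ℤ → Scheme.{0} → Type) (grp : ∀ (i : ℤ) (X : Scheme.{0}), AddCommGroup (H i X))
    (X Z U : Scheme.{0}) : Prop :=
  ∃ (a : ∀ q, H q Z →+ H q X) (b : ∀ q, H q X →+ H q U) (c : ∀ q, H q U →+ H (q + 1) Z),
    (∀ q, Function.Exact (a q) (b q)) ∧ (∀ q, Function.Exact (b q) (c q)) ∧
    ∀ q, Function.Exact (c q) (a (q + 1))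

/-- `i` is a closed immersion and `j` is an open immersion onto the complement of its image. -/
def IsPair {X Z U : Scheme.{0}} (i : Z ⟶ X) (j : U ⟶ X) : Prop :=
  IsClosedImmersion i ∧ IsOpenImmersion j ∧ Set.range i = (Set.range j)ᶜ

/-- `A` is a direct factor of `B`. -/
def IsFactor (A B : Type) [AddCommGroup A] [AddCommGroup B] : Prop :=
  ∃ (s : A →+ B) (r : B →+ A), ∀ x, r (s x) = x

/-- The groups `H^i(X_et, ℤ^c(n))` of arithmetic schemes `X`, with the known properties which are
used. -/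
structure EtMot where
  /-- the group `H^i(X_et, ℤ^c(n))` -/
  H : ℤ → ℤ → Scheme.{0} → Type
  /-- its group structure -/
  grp : ∀ i n X, AddCommGroup (H i n X)
  /-- isomorphic schemes have isomorphic groups -/
  iso : ∀ (i n : ℤ) (X Y : Scheme.{0}), (X ≅ Y) → Nonempty (H i n X ≃+ H i n Y)
  /-- the localization sequence
  `⋯ → H^i(Z, ℤ^c(n)) → H^i(X, ℤ^c(n)) → H^i(U, ℤ^c(n)) → H^(i+1)(Z, ℤ^c(n)) → ⋯` of a closed
  subscheme `Z` with open complement `U`, for `n ≤ 0` -/
  localization : ∀ (n : ℤ) (X Z U : Scheme.{0}) (i : Z ⟶ X) (j : U ⟶ X), n ≤ 0 → IsArithmetic X →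
    IsPair i j → LongSeq (fun q => H q n) (fun q => grp q n) X Z U
  /-- homotopy invariance for the affine bundles of Jouanolou, of dimension `m`: the spectrum of
  `A[w_0, ..., w_m] / (∑ f_l w_l - 1)` over the complement `U` of `f = 0` -/
  bundle : ∀ (q n : ℤ) (A : Type) [CommRing A] [Algebra.FiniteType ℤ A] (m : ℕ)
    (f : Fin (m + 1) → A) (U : Scheme.{0}) (j : U ⟶ sp A), n ≤ 0 → IsCompl f j →
    Nonempty (H q n (jouS f) ≃+ H (q + 2 * (m : ℤ)) (n - (m : ℤ)) U)
  /-- `H^(q+1)(X, ℤ^c(n))` is a direct factor of `H^q(X × 𝔾_m, ℤ^c(n))`, `X = Spec A` -/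
  torus : ∀ (q n : ℤ) (A : Type) [CommRing A] [Algebra.FiniteType ℤ A], n ≤ 0 →
    IsFactor (H (q + 1) n (sp A)) (H q n (laurS A))
  /-- finite generation for arithmetic schemes of dimension at most one and `n < 0` (Morin) -/
  curves : ∀ (q n : ℤ) (X : Scheme.{0}), n < 0 → IsArithmetic X → topologicalKrullDim X ≤ 1 →
    AddGroup.FG (H q n X)

attribute [instance] EtMot.grp

/-- A Serre class of abelian groups: it contains `0`, and it contains `B` if there is an exact
sequence `A → B → C` with `A` and `C` in the class. -/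
structure IsSerre (S : ∀ (G : Type) [AddCommGroup G], Prop) : Prop where
  zero : S PUnit
  mid : ∀ {A B C : Type} [AddCommGroup A] [AddCommGroup B] [AddCommGroup C] (f : A →+ B)
    (g : B →+ C), Function.Exact f g → S A → S C → S B

/-- the long exact sequence of a closed-open decomposition -/
theorem EtMot.longSeq (T : EtMot) {n : ℤ} (hn : n ≤ 0) {X Z U : Scheme.{0}} (i : Z ⟶ X) (j : U ⟶ X)
    (hX : IsArithmetic X) (h : IsPair i j) :
    ∃ (a : ∀ q, T.H q n Z →+ T.H q n X) (b : ∀ q, T.H q n X →+ T.H q n U)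
      (c : ∀ q, T.H q n U →+ T.H (q + 1) n Z),
      (∀ q, Function.Exact (a q) (b q)) ∧ (∀ q, Function.Exact (b q) (c q)) ∧
      ∀ q, Function.Exact (c q) (a (q + 1)) :=
  T.localization n X Z U i j hn hX h

end Pool.Agent.Run7.h30.EM
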