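import Pool.Agent.Run7.h30.EM.TopDefs
import Pool.Agent.Run7.h30.EM.Dev
import Pool.Agent.Run7.h30.EM.Res

/-!
# Proper regular schemes and all arithmetic schemes
-/

set_option autoImplicit false

open CategoryTheory CategoryTheory.Limits AlgebraicGeometry TopologicalSpace
open Pool.Agent.Y116.UV Pool.Agent.R904.TR Pool.Agent.R904.CU

namespace Pool.Agent.Run7.h30.EM

/-! ### Dimensions -/

lemma dim_lt_of_closed {Y Z : Type} [TopologicalSpace Y] [TopologicalSpace Z] [IrreducibleSpace Y]
    {f : Z → Y} (hf : Topology.IsInducing f) (hc : IsClosed (Set.range f))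
    (hne : Set.range f ≠ Set.univ) {D : ℕ}
    (h : topologicalKrullDim Y < ((D + 1 : ℕ) : WithBot ℕ∞)) :
    topologicalKrullDim Z < (D : WithBot ℕ∞) := by
  unfold topologicalKrullDim at *
  rw [Order.krullDim_lt_coe_iff] at *
  intro l
  let g := IrreducibleCloseds.map f hf.continuous
  have hg : StrictMono g := IrreducibleCloseds.map_strictMono_of_isInducing hf
  let t : IrreducibleCloseds Y := ⟨Set.univ, IrreducibleSpace.isIrreducible_univ Y, isClosed_univ⟩
  have ht : (l.map g hg).last < t := by
    refine lt_of_le_of_ne (fun x _ => trivial) fun heq => hne ?_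
    have h1 : closure (f '' (l.last : Set Z)) = Set.univ := by
      have h5 : ((l.map g hg).last : Set Y) = (t : Set Y) :=
        congrArg (fun s : IrreducibleCloseds Y => (s : Set Y)) heq
      rw [LTSeries.last_map] at h5
      exact h5
    rw [Set.eq_univ_iff_forall]
    intro x
    have h2 : x ∈ closure (f '' (l.last : Set Z)) := by
      rw [h1]
      trivial
    exact (closure_minimal (Set.image_subset_range f _) hc) h2
  have h3 := h ((l.map g hg).snoc t ht)
  have h4 : ((l.map g hg).snoc t ht).length = l.length + 1 := rfl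
  omega

lemma isEmpty_of_dim {Y : Type} [TopologicalSpace Y] (h : topologicalKrullDim Y < ((0 : ℕ) :
    WithBot ℕ∞)) : IsEmpty Y := by
  unfold topologicalKrullDim at h
  rw [Order.krullDim_lt_coe_iff] at h
  refine ⟨fun y => ?_⟩
  have h1 := h (RelSeries.singleton _ (⟨closure {y}, isIrreducible_singleton.closure,
    isClosed_closure⟩ : IrreducibleCloseds Y))
  omega

lemma lt_succ_iff' (x : WithBot ℕ∞) (D : ℕ) : x < ((D + 1 : ℕ) : WithBot ℕ∞) ↔ x ≤ (D : WithBot ℕ∞) := by
  have h : ((D + 1 : ℕ) : WithBot ℕ∞) = (D : WithBot ℕ∞) + 1 := by push_cast; rfl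
  rw [h]
  exact ENat.WithBot.lt_add_one_iff

/-! ### Schemes -/

section

variable (T : EtMots)

lemma fg_of_sub {A : Type} [AddCommGroup A] [Subsingleton A] : AddGroup.FG A :=
  AddGroup.fg_of_surjective (f := (0 : PUnit.{1} →+ A)) fun _ => ⟨PUnit.unit, Subsingleton.elim _ _⟩

lemma sub_trace {A B : Type} [AddCommGroup A] [AddCommGroup B] (h : HasTrace A B)
    (hQ : Nonempty (Module ℚ A)) (hB : Subsingleton B) : Subsingleton A := by
  obtain ⟨s, r, m, hm, hsr⟩ := h
  obtain ⟨hQ⟩ := hQ
  have key : ∀ x : A, x = 0 := by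
    intro x
    have h1 := hsr x
    rw [Subsingleton.elim (s x) 0, map_zero] at h1
    have h2 : ((m : ℚ)) • x = 0 := by
      rw [Nat.cast_smul_eq_nsmul]
      exact h1.symm
    have h3 : (m : ℚ) ≠ 0 := by exact_mod_cast hm.ne'
    exact (smul_eq_zero.mp h2).resolve_left h3
  exact ⟨fun x y => by rw [key x, key y]⟩

lemma fg_trace {A B : Type} [AddCommGroup A] [AddCommGroup B] (h : HasTrace A B)
    (ht : ∀ m : ℕ, 0 < m → {x : A | m • x = 0}.Finite) (hB : AddGroup.FG B) : AddGroup.FG A := by
  obtain ⟨s, r, m, hm, hsr⟩ := h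
  have h1 : Finite s.ker := by
    have h2 : (s.ker : Set A) ⊆ {x : A | m • x = 0} := by
      intro x hx
      have h3 : s x = 0 := hx
      have h4 := hsr x
      rw [h3, map_zero] at h4
      exact h4.symm
    exact ((ht m hm).subset h2).to_subtype
  refine fg_exact s.ker.subtype s ?_ inferInstance hB
  intro y
  constructor
  · intro hy
    exact ⟨⟨y, hy⟩, rfl⟩
  · rintro ⟨x, rfl⟩
    exact x.2

/-- the long exact sequence of a closed-open decomposition -/
theorem EtMots.longSeq {n : ℤ} (hn : n ≤ 0) {X Z U : Scheme.{0}} (i : Z ⟶ X) (j : U ⟶ X)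
    (hX : IsArithmetic X) (h : IsPair i j) :
    ∃ (a : ∀ q, T.H q n Z →+ T.H q n X) (b : ∀ q, T.H q n X →+ T.H q n U)
      (c : ∀ q, T.H q n U →+ T.H (q + 1) n Z),
      (∀ q, Function.Exact (a q) (b q)) ∧ (∀ q, Function.Exact (b q) (c q)) ∧
      ∀ q, Function.Exact (c q) (a (q + 1)) :=
  T.localization n X Z U i j hn hX h

lemma arith_ft {X : Sch ℤ} (h : FT True X) : IsArithmetic X.left := arith_of_ft (R := ℤ) h

lemma arith_isArith {d : ℕ} {X : Scheme.{0}} (h : Arith d X) : IsArithmetic X := by
  have h1 := h.1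
  exact ⟨inferInstance, inferInstance, inferInstance⟩

/-- the vanishing for the dimension `D` -/
def VanAt (D : ℤ) (X : Scheme.{0}) : Prop :=
  ∀ i n : ℤ, n ≤ 0 → i < -2 * D → Subsingleton (T.H i n X)

/-- finite generation in negative weights -/
def GenAt (X : Scheme.{0}) : Prop := ∀ i n : ℤ, n < 0 → AddGroup.FG (T.H i n X)

/-- the dimensions of the members of a triple -/
lemma dim_triple {Z X U : Sch ℤ} {i : Z ⟶ X} {j : U ⟶ X} (ht : IsTriple i j) :
    topologicalKrullDim Z.left ≤ topologicalKrullDim X.left ∧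
      topologicalKrullDim U.left ≤ topologicalKrullDim X.left := by
  have h1 := ht.closed
  have h2 := ht.opened
  exact ⟨(Scheme.Hom.isClosedEmbedding i.left).isInducing.topologicalKrullDim_le,
    (Scheme.Hom.isOpenEmbedding j.left).isInducing.topologicalKrullDim_le⟩

lemma dim_iso {X Y : Sch ℤ} (e : X ≅ Y) :
    topologicalKrullDim X.left = topologicalKrullDim Y.left :=
  (Scheme.homeoOfIso ((Over.forget _).mapIso e)).isHomeomorph.topologicalKrullDim_eq _

/-- The geometric step: for a domain `B` there is an open subscheme `U` of `Spec B` for which the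
property is true, if it is true for proper regular schemes and for schemes of smaller dimension. -/
lemma generic_step (hJ : DeJong) {P : Scheme.{0} → Prop} {D : ℕ}
    (hprop : ∀ (d : ℕ) (Y : Scheme.{0}), Arith d Y → d ≤ D → P Y) {P' : Scheme.{0} → Prop}
    (hsmall : ∀ X : Sch ℤ, FT True X → topologicalKrullDim X.left < (D : WithBot ℕ∞) → P' X.left)
    (hopen : ∀ (Y Z V : Scheme.{0}) (i : Z ⟶ Y) (j : V ⟶ Y), IsArithmetic Y → IsPair i j →
      P Y → P' Z → P V)
    (htr : ∀ (V U : Scheme.{0}) (f : V ⟶ U), IsArithmetic U → IsFinite f → Flat f → Surjective f →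
      IsIntegral V → IsIntegral U → topologicalKrullDim U ≤ (D : WithBot ℕ∞) → P V → P U)
    (B : Type) [CommRing B] [IsDomain B] [Algebra ℤ B] [Algebra.FiniteType ℤ B] :
    ∃ w : B, w ≠ 0 ∧ (topologicalKrullDim (aff ℤ (Localization.Away w)).left <
      ((D + 1 : ℕ) : WithBot ℕ∞) → P (aff ℤ (Localization.Away w)).left) := by
  obtain ⟨w, hw, V, Y, f, j, d, h1, h2, h3, h4, h5, h6, h7, h8⟩ :=
    @hJ B _ _ (ft_trans (R := ℤ) B)
  refine ⟨w, hw, fun hdim => ?_⟩
  have hBd : IsDomain (Localization.Away w) := IsLocalization.isDomain_localization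
    (powers_le_nonZeroDivisors_of_noZeroDivisors hw)
  have hLft : Algebra.FiniteType ℤ (Localization.Away w) :=
    Algebra.FiniteType.trans (S := B) inferInstance inferInstance
  have hU : FT True (aff ℤ (Localization.Away w)) := ft_aff True
  have hdim' : topologicalKrullDim (Spec (.of (Localization.Away w)) : Scheme.{0}) ≤
      (D : WithBot ℕ∞) := (lt_succ_iff' _ _).mp hdim
  have hd : d ≤ D := by
    have h9 : (d : WithBot ℕ∞) ≤ (D : WithBot ℕ∞) := by
      refine h8.trans ?_
      rw [← dim_spec]
      exact hdim'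
    exact_mod_cast h9
  let X : Sch ℤ := Over.mk (specZIsTerminal.from Y)
  have hX : FT True X := ft_arith (arith_isArith h6)
  let S : X.left.Opens := j.opensRange
  have hS : (S : Set X.left) = Set.range j := rfl
  have hVne : Nonempty V := inferInstance
  have hpair : IsPair (cloMap X S).left j := by
    refine ⟨inferInstance, h5, ?_⟩
    rw [range_cloMap]
    rfl
  have hZ : topologicalKrullDim (clo X S).left < (D : WithBot ℕ∞) := by
    have h10 : IrreducibleSpace X.left := h7
    refine dim_lt_of_closed (f := (cloMap X S).left)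
      (Scheme.Hom.isClosedEmbedding (cloMap X S).left).isInducing
      (Scheme.Hom.isClosedEmbedding (cloMap X S).left).isClosed_range ?_ ?_
    · intro h11
      have h12 : Set.range (cloMap X S).left = (S : Set X.left)ᶜ := range_cloMap X S
      obtain ⟨v⟩ := hVne
      have h13 : j v ∈ Set.range (cloMap X S).left := by
        rw [h11]
        trivial
      rw [h12] at h13
      exact h13 ⟨v, rfl⟩
    · have h14 : topologicalKrullDim X.left = (d : WithBot ℕ∞) := h6.2.2.2
      rw [h14, lt_succ_iff']
      exact_mod_cast hd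
  have hV : P V := hopen Y (clo X S).left V (cloMap X S).left j (arith_isArith h6) hpair
    (hprop d Y h6 hd) (hsmall _ (ft_clo hX) hZ)
  have hI : IsIntegral (Spec (.of (Localization.Away w)) : Scheme.{0}) := inferInstance
  exact htr V _ f (arith_ft hU) h1 h2 h3 h4 hI hdim' hV

lemma empty_aff (B : Type) [CommRing B] [Algebra ℤ B] (hB : Subsingleton B) :
    IsEmpty (aff ℤ B).left := inferInstanceAs (IsEmpty (PrimeSpectrum B))

/-- the vanishing below `-2 D` -/
theorem van_dim (hJ : DeJong) (h0 : ∀ (d : ℕ) (X : Scheme.{0}), Arith d X → VanAt T d X) :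
    ∀ (D : ℕ) (X : Sch ℤ), FT True X → topologicalKrullDim X.left < (D : WithBot ℕ∞) →
      VanAt T ((D : ℤ) - 1) X.left := by
  intro D
  induction D with
  | zero =>
    intro X _ hd i n _ _
    exact T.empty i n _ (isEmpty_of_dim hd)
  | succ D ih =>
    have hdev : Dev True fun X : Sch ℤ => topologicalKrullDim X.left < ((D + 1 : ℕ) : WithBot ℕ∞) →
        VanAt T D X.left := by
      refine ⟨?_, ?_, ?_, ?_⟩
      · rintro X Y _ ⟨e⟩ h hd i n hn hi
        have h1 := h (by rwa [dim_iso e]) i n hn hi
        obtain ⟨e'⟩ := T.iso i n _ _ ((Over.forget _).mapIso e)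
        have h2 : Subsingleton (T.H i n ((Over.forget _).obj X)) := h1
        exact e'.symm.toEquiv.subsingleton
      · intro Z X U i j hX ht hZ hU hd q n hn hq
        obtain ⟨hdZ, hdU⟩ := dim_triple ht
        obtain ⟨a, b, c, h1, h2, h3⟩ := T.longSeq hn i.left j.left (arith_ft hX)
          ⟨ht.closed, ht.opened, ht.compl⟩
        exact sub_mid (a q) (b q) (h1 q) (hZ (hdZ.trans_lt hd) q n hn hq)
          (hU (hdU.trans_lt hd) q n hn hq)
      · intro B _ _ hB _ i n _ _
        exact T.empty i n _ (empty_aff B hB)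
      · intro B _ _ _ _
        refine generic_step hJ (P := VanAt T D) (P' := VanAt T ((D : ℤ) - 1)) ?_ ih ?_ ?_ B
        · intro d Y hY hd i n hn hi
          exact h0 d Y hY i n hn (by omega)
        · intro Y Z V i j hY hp hY' hZ q n hn hq
          obtain ⟨a, b, c, h1, h2, h3⟩ := T.longSeq hn i j hY hp
          exact sub_mid (b q) (c q) (h2 q) (hY' q n hn hq) (hZ (q + 1) n hn (by omega))
        · intro V U f hU h1 h2 h3 h4 h5 hd hV i n hn hi
          exact sub_trace (T.trace V U f hU h1 h2 h3 h4 h5 i n hn)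
            (T.divisible D U hU hd i n hn hi) (hV i n hn hi)
    intro X hX hd
    have h := hdev.all X hX hd
    have e : (((D + 1 : ℕ) : ℤ) - 1) = (D : ℤ) := by push_cast; ring
    rw [e]
    exact h

/-- finite generation in dimension less than `D` -/
theorem gen_dim (hJ : DeJong) (h0 : ∀ (d : ℕ) (X : Scheme.{0}), Arith d X → GenAt T X) :
    ∀ (D : ℕ) (X : Sch ℤ), FT True X → topologicalKrullDim X.left < (D : WithBot ℕ∞) →
      GenAt T X.left := by
  intro D
  induction D with
  | zero =>
    intro X _ hd i n _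
    have := T.empty i n _ (isEmpty_of_dim hd)
    exact fg_of_sub
  | succ D ih =>
    have hdev : Dev True fun X : Sch ℤ => topologicalKrullDim X.left < ((D + 1 : ℕ) : WithBot ℕ∞) →
        GenAt T X.left := by
      refine ⟨?_, ?_, ?_, ?_⟩
      · rintro X Y _ ⟨e⟩ h hd i n hn
        exact fg_equiv (T.iso i n _ _ ((Over.forget _).mapIso e)) (h (by rwa [dim_iso e]) i n hn)
      · intro Z X U i j hX ht hZ hU hd q n hn
        obtain ⟨hdZ, hdU⟩ := dim_triple ht
        obtain ⟨a, b, c, h1, h2, h3⟩ := T.longSeq hn.le i.left j.left (arith_ft hX)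
          ⟨ht.closed, ht.opened, ht.compl⟩
        exact fg_exact (a q) (b q) (h1 q) (hZ (hdZ.trans_lt hd) q n hn)
          (hU (hdU.trans_lt hd) q n hn)
      · intro B _ _ hB _ i n _
        have := T.empty i n _ (empty_aff B hB)
        exact fg_of_sub
      · intro B _ _ _ _
        refine generic_step hJ (P := GenAt T) (P' := GenAt T) ?_ ih ?_ ?_ B
        · intro d Y hY _
          exact h0 d Y hY
        · intro Y Z V i j hY hp hY' hZ q n hn
          obtain ⟨a, b, c, h1, h2, h3⟩ := T.longSeq hn.le i j hY hp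
          exact fg_exact (b q) (c q) (h2 q) (hY' q n hn) (hZ (q + 1) n hn)
        · intro V U f hU h1 h2 h3 h4 h5 hd hV i n hn
          exact fg_trace (T.trace V U f hU h1 h2 h3 h4 h5 i n hn.le)
            (fun m hm => T.torsion U hU i n m hn hm) (hV i n hn)
    exact fun X hX hd => hdev.all X hX hd

end

end Pool.Agent.Run7.h30.EM
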