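import Pool.Agent.Run7.h30.EM.Thy

/-!
# Proper regular schemes and all arithmetic schemes: definitions
-/

set_option autoImplicit false

open CategoryTheory CategoryTheory.Limits AlgebraicGeometry

namespace Pool.Agent.Run7.h30.EM

attribute [local instance] MvPolynomial.gradedAlgebra

/-- `X` is a proper, regular and connected scheme over `ℤ` of Krull dimension `d`. -/
def Arith (d : ℕ) (X : Scheme.{0}) : Prop :=
  IsProper (specZIsTerminal.from X) ∧ (∀ x : X, IsRegularLocalRing (X.presheaf.stalk x)) ∧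
    ConnectedSpace X ∧ topologicalKrullDim X = d

/-- The projective space of dimension `m` over `X`. -/
noncomputable def ProjOver (m : ℕ) (X : Scheme.{0}) : Scheme.{0} :=
  pullback (specZIsTerminal.from X)
    (specZIsTerminal.from (Proj (MvPolynomial.homogeneousSubmodule (Fin (m + 1)) ℤ)))

/-- De Jong's theorem on alterations of arithmetic schemes, in the following form. For every integral
domain `B` of finite type over `ℤ` there are `w ≠ 0` in `B`, a finite flat surjective morphism from an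
integral scheme `V` to `Spec B[1/w]` and an open immersion of `V` in a proper regular connected scheme
`Y`; the dimension `d` of `Y` is at most the one of `B[1/w]`. (`V` is an open subscheme of an alteration
of `Spec B`.) -/
def DeJong : Prop :=
  ∀ (B : Type) [CommRing B] [IsDomain B] [Algebra.FiniteType ℤ B], ∃ w : B, w ≠ 0 ∧
    ∃ (V Y : Scheme.{0}) (f : V ⟶ Spec (.of (Localization.Away w))) (j : V ⟶ Y) (d : ℕ),
      IsFinite f ∧ Flat f ∧ Surjective f ∧ IsIntegral V ∧ IsOpenImmersion j ∧ Arith d Y ∧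
        IrreducibleSpace Y ∧ (d : WithBot ℕ∞) ≤ ringKrullDim (Localization.Away w)

/-- There are homomorphisms `A → B → A` whose composition is the multiplication by a positive
integer. -/
def HasTrace (A B : Type) [AddCommGroup A] [AddCommGroup B] : Prop :=
  ∃ (s : A →+ B) (r : B →+ A) (m : ℕ), 0 < m ∧ ∀ x, r (s x) = m • x

/-- The groups `H^i(X_et, ℤ^c(n))`, `n ≤ 0`, of arithmetic schemes, and `H^i(X_et, ℤ(n))` of proper
regular ones, with the known properties which are used. -/
structure EtMots where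
  /-- the group `H^i(X_et, ℤ(n))` -/
  M : ℤ → ℤ → Scheme.{0} → Type
  /-- its group structure -/
  grpM : ∀ i n X, AddCommGroup (M i n X)
  /-- the group `H^i(X_et, ℤ^c(n))` -/
  H : ℤ → ℤ → Scheme.{0} → Type
  /-- its group structure -/
  grp : ∀ i n X, AddCommGroup (H i n X)
  /-- `H^i(X_et, ℤ^c(n)) = H^(2 d + i)(X_et, ℤ(d - n))` for proper regular `X` of dimension `d` -/
  compare : ∀ (d : ℕ) (X : Scheme.{0}), Arith d X → ∀ i n : ℤ, n ≤ 0 →
    Nonempty (H i n X ≃+ M (2 * (d : ℤ) + i) ((d : ℤ) - n) X)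
  /-- isomorphic schemes have isomorphic groups -/
  iso : ∀ (i n : ℤ) (X Y : Scheme.{0}), (X ≅ Y) → Nonempty (H i n X ≃+ H i n Y)
  /-- the groups of the empty scheme are zero -/
  empty : ∀ (i n : ℤ) (X : Scheme.{0}), IsEmpty X → Subsingleton (H i n X)
  /-- the localization sequence
  `⋯ → H^i(Z, ℤ^c(n)) → H^i(X, ℤ^c(n)) → H^i(U, ℤ^c(n)) → H^(i+1)(Z, ℤ^c(n)) → ⋯` of a closed
  subscheme `Z` with open complement `U`, for `n ≤ 0` -/
  localization : ∀ (n : ℤ) (X Z U : Scheme.{0}) (i : Z ⟶ X) (j : U ⟶ X), n ≤ 0 → IsArithmetic X →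
    IsPair i j → LongSeq (fun q => H q n) (fun q => grp q n) X Z U
  /-- `H^i(X_et, ℤ^c(n))` is uniquely divisible for `i < -2 dim X` -/
  divisible : ∀ (D : ℕ) (X : Scheme.{0}), IsArithmetic X → topologicalKrullDim X ≤ D →
    ∀ i n : ℤ, n ≤ 0 → i < -2 * D → Nonempty (Module ℚ (H i n X))
  /-- the elements killed by a positive integer form a finite group, for `n < 0` -/
  torsion : ∀ (X : Scheme.{0}), IsArithmetic X → ∀ (i n : ℤ) (m : ℕ), n < 0 → 0 < m →
    {x : H i n X | m • x = 0}.Finite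
  /-- transfer for finite flat surjective morphisms of integral schemes -/
  trace : ∀ (V U : Scheme.{0}) (f : V ⟶ U), IsArithmetic U → IsFinite f → Flat f → Surjective f →
    IsIntegral V → IsIntegral U → ∀ i n : ℤ, n ≤ 0 → HasTrace (H i n U) (H i n V)
  /-- projective spaces over `X` are again proper, regular and connected -/
  proj : ∀ (d m : ℕ) (X : Scheme.{0}), Arith d X → Arith (d + m) (ProjOver m X)
  /-- projective bundle formula: `H^i(ℙ^m_X, ℤ^c(n)) = ⨁ H^(i + 2 k)(X, ℤ^c(n - k))`, the sum over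
  `0 ≤ k ≤ m`, for `n ≤ 0` -/
  bundle : ∀ (d m : ℕ) (X : Scheme.{0}), Arith d X → ∀ i n : ℤ, n ≤ 0 →
    Nonempty (H i n (ProjOver m X) ≃+ ∀ k : Fin (m + 1), H (i + 2 * (k : ℤ)) (n - (k : ℤ)) X)
  /-- for `n < 0` the group of degree `-2 n + 1` is finite, for proper regular `X` -/
  top : ∀ (d : ℕ) (X : Scheme.{0}), Arith d X → ∀ n : ℤ, n < 0 → Finite (H (-2 * n + 1) n X)
  /-- for `n < 0` and proper regular `X`, finite generation for `i ≤ -2 n + 1` implies finite generation
  for all `i` -/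
  duality : ∀ (d : ℕ) (X : Scheme.{0}), Arith d X → ∀ n : ℤ, n < 0 →
    (∀ i : ℤ, i ≤ -2 * n + 1 → AddGroup.FG (H i n X)) → ∀ i : ℤ, AddGroup.FG (H i n X)

attribute [instance] EtMots.grpM EtMots.grp

variable (T : EtMots)

/-- Q1 for the pairs of the dimension `d` and the degree `2 d - e ≥ 0` with `W d e`:
`H^(2 d - e)(X_et, ℤ(d))` is finitely generated, for all proper regular connected `X` of dimension
`d`. -/
def EtMots.Part (W : ℕ → ℕ → Prop) : Prop :=
  ∀ (d : ℕ) (X : Scheme.{0}), Arith d X → ∀ e : ℕ, e ≤ 2 * d → W d e →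
    AddGroup.FG (T.M (2 * (d : ℤ) - (e : ℤ)) d X)

/-- The conjecture Q1: `H^i(X_et, ℤ(d))` is finitely generated for all `i ≤ 2 d`, for all proper regular
connected schemes `X` over `ℤ`, `d = dim X`. -/
def EtMots.Q1 : Prop :=
  ∀ (d : ℕ) (X : Scheme.{0}), Arith d X → ∀ i : ℤ, i ≤ 2 * d → AddGroup.FG (T.M i d X)

/-- The second half of Q1 (a case of the conjecture of Beilinson and Soulé): `H^i(X_et, ℤ(d)) = 0` for
`i < 0`, for all proper regular connected schemes `X` over `ℤ`, `d = dim X`. -/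
def EtMots.Vanish : Prop :=
  ∀ (d : ℕ) (X : Scheme.{0}), Arith d X → ∀ i : ℤ, i < 0 → Subsingleton (T.M i d X)

/-- For all arithmetic schemes `X` and all `n < 0` all groups `H^i(X_et, ℤ^c(n))` are finitely
generated. -/
def EtMots.Negative : Prop :=
  ∀ X : Scheme.{0}, IsArithmetic X → ∀ i n : ℤ, n < 0 → AddGroup.FG (T.H i n X)

/-- For all arithmetic schemes `X` and all `n ≤ 0` the groups `H^i(X_et, ℤ^c(n))` are zero for
`i < -2 dim X`. -/
def EtMots.Bounded : Prop :=
  ∀ X : Scheme.{0}, IsArithmetic X → ∀ D : ℕ, topologicalKrullDim X ≤ D →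
    ∀ i n : ℤ, n ≤ 0 → i < -2 * D → Subsingleton (T.H i n X)

end Pool.Agent.Run7.h30.EM
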