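import Pool.Agent.Run7.h30.EM.Top

/-!
# Proper regular schemes and all arithmetic schemes: results
-/

set_option autoImplicit false

open CategoryTheory CategoryTheory.Limits AlgebraicGeometry TopologicalSpace MvPolynomial
open Pool.Agent.Y116.UV Pool.Agent.R904.TR Pool.Agent.R904.CU

namespace Pool.Agent.Run7.h30.EM

/-- a vector space over `ℚ` which is a finitely generated group is zero -/
lemma rat_zero (V : Type) [AddCommGroup V] [Module ℚ V] (h : AddGroup.FG V) : Subsingleton V := by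
  have h0 : Module.Finite ℤ V := Module.Finite.iff_addGroup_fg.mpr h
  have h1 : (⊤ : Submodule ℤ V) ≤ (Ideal.span {(2 : ℤ)}) • (⊤ : Submodule ℤ V) := by
    intro v _
    have h2 : v = (2 : ℤ) • ((1 / 2 : ℚ) • v) := by
      rw [← Int.cast_smul_eq_zsmul ℚ, smul_smul]
      norm_num
    rw [h2]
    exact Submodule.smul_mem_smul (Ideal.mem_span_singleton_self _) trivial
  obtain ⟨r, hr, hr2⟩ := Submodule.exists_sub_one_mem_and_smul_eq_zero_of_fg_of_le_smul
    (Ideal.span {(2 : ℤ)}) ⊤ h0.fg_top h1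
  have hr0 : (r : ℚ) ≠ 0 := by
    intro h
    have h3 : r = 0 := by exact_mod_cast h
    rw [h3, Ideal.mem_span_singleton] at hr
    omega
  refine ⟨fun a b => ?_⟩
  have key : ∀ v : V, v = 0 := by
    intro v
    have h3 := hr2 v trivial
    rw [← Int.cast_smul_eq_zsmul ℚ] at h3
    exact (smul_eq_zero.mp h3).resolve_left hr0
  rw [key a, key b]

section

variable (T : EtMots)

lemma fgH_cast {i i' n n' : ℤ} {X : Scheme.{0}} (hi : i = i') (hn : n = n')
    (h : AddGroup.FG (T.H i n X)) : AddGroup.FG (T.H i' n' X) := by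
  subst hi hn
  exact h

lemma fgM_cast {i i' n n' : ℤ} {X : Scheme.{0}} (hi : i = i') (hn : n = n')
    (h : AddGroup.FG (T.M i n X)) : AddGroup.FG (T.M i' n' X) := by
  subst hi hn
  exact h

lemma subH_cast {i i' n n' : ℤ} {X : Scheme.{0}} (hi : i = i') (hn : n = n')
    (h : Subsingleton (T.H i n X)) : Subsingleton (T.H i' n' X) := by
  subst hi hn
  exact h

lemma subM_cast {i i' n n' : ℤ} {X : Scheme.{0}} (hi : i = i') (hn : n = n')
    (h : Subsingleton (T.M i n X)) : Subsingleton (T.M i' n' X) := by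
  subst hi hn
  exact h

lemma fgH_factor {d m : ℕ} {X : Scheme.{0}} (hX : Arith d X) {i n : ℤ} (hn : n ≤ 0)
    (h : AddGroup.FG (T.H i n (ProjOver m X))) (k : ℕ) (hk : k ≤ m) :
    AddGroup.FG (T.H (i + 2 * k) (n - k) X) := by
  obtain ⟨e⟩ := T.bundle d m X hX i n hn
  exact AddGroup.fg_of_surjective
    (f := (Pi.evalAddMonoidHom (fun k : Fin (m + 1) => T.H (i + 2 * (k : ℤ)) (n - (k : ℤ)) X)
      ⟨k, Nat.lt_succ_of_le hk⟩).comp e.toAddMonoidHom)
    ((Function.surjective_eval _).comp e.surjective)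

lemma subH_factor {d m : ℕ} {X : Scheme.{0}} (hX : Arith d X) {i n : ℤ} (hn : n ≤ 0)
    (h : Subsingleton (T.H i n (ProjOver m X))) (k : ℕ) (hk : k ≤ m) :
    Subsingleton (T.H (i + 2 * k) (n - k) X) := by
  obtain ⟨e⟩ := T.bundle d m X hX i n hn
  exact ((Function.surjective_eval (β := fun k : Fin (m + 1) =>
    T.H (i + 2 * (k : ℤ)) (n - (k : ℤ)) X) ⟨k, Nat.lt_succ_of_le hk⟩).comp
      e.surjective).subsingleton

/-- finite generation for proper regular `X` and `i + 2 n ≤ 0` -/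
lemma fg_of_part {W : ℕ → ℕ → Prop} (hW : ∀ e N : ℕ, ∃ d : ℕ, N ≤ d ∧ W d e) (h : T.Part W)
    {d : ℕ} {X : Scheme.{0}} (hX : Arith d X) (i n : ℤ) (hn : n ≤ 0) (hi : i + 2 * n ≤ 0) :
    AddGroup.FG (T.H i n X) := by
  obtain ⟨e, he⟩ : ∃ e : ℕ, (e : ℤ) = -i - 2 * n := ⟨(-i - 2 * n).toNat, by omega⟩
  obtain ⟨k, hk⟩ : ∃ k : ℕ, (k : ℤ) = -n := ⟨(-n).toNat, by omega⟩
  obtain ⟨D, hD, hWD⟩ := hW e (d + k + e)
  obtain ⟨m, rfl⟩ : ∃ m : ℕ, D = d + m := ⟨D - d, by omega⟩
  have hP := T.proj d m X hX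
  have h1 := h (d + m) (ProjOver m X) hP e (by omega) hWD
  obtain ⟨c⟩ := T.compare (d + m) (ProjOver m X) hP (-(e : ℤ)) 0 le_rfl
  have h2 : AddGroup.FG (T.M (2 * ((d + m : ℕ) : ℤ) + -(e : ℤ)) (((d + m : ℕ) : ℤ) - 0)
      (ProjOver m X)) := fgM_cast T (by ring) (by ring) h1
  have h3 : AddGroup.FG (T.H (-(e : ℤ)) 0 (ProjOver m X)) := fg_equiv ⟨c.symm⟩ h2
  have h4 := fgH_factor T hX le_rfl h3 k (by omega)
  refine fgH_cast T ?_ ?_ h4 <;> omega

lemma arith_dim {d : ℕ} {X : Scheme.{0}} (hX : Arith d X) :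
    topologicalKrullDim X ≤ (d : WithBot ℕ∞) := hX.2.2.2.le

/-- the case of proper regular schemes -/
lemma arith_of_fg {d : ℕ} {X : Scheme.{0}} (hX : Arith d X)
    (h : ∀ i n : ℤ, n ≤ 0 → i + 2 * n ≤ 0 → AddGroup.FG (T.H i n X)) :
    VanAt T d X ∧ GenAt T X := by
  constructor
  · intro i n hn hi
    obtain ⟨hm⟩ := T.divisible d X (arith_isArith hX) (arith_dim hX) i n hn hi
    exact rat_zero _ (h i n hn (by omega))
  · intro i n hn
    refine T.duality d X hX n hn (fun i hi => ?_) i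
    rcases hi.lt_or_eq with hi | rfl
    · exact h i n hn.le (by omega)
    · have h1 := T.top d X hX n hn
      infer_instance

/-- algebras of finite type over `ℤ` are of finite dimension -/
lemma dim_finite (A : Type) [CommRing A] [Algebra ℤ A] [Algebra.FiniteType ℤ A] :
    ∃ D : ℕ, topologicalKrullDim (aff ℤ A).left < (D : WithBot ℕ∞) := by
  obtain ⟨n, π, hπ⟩ := Algebra.FiniteType.iff_quotient_mvPolynomial''.mp
    (inferInstance : Algebra.FiniteType ℤ A)
  refine ⟨n + 2, ?_⟩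
  have h1 : topologicalKrullDim (aff ℤ A).left = ringKrullDim A := dim_spec A
  have h2 : ringKrullDim A ≤ ringKrullDim (MvPolynomial (Fin n) ℤ) :=
    ringKrullDim_le_of_surjective π.toRingHom hπ
  have h3 : ringKrullDim (MvPolynomial (Fin n) ℤ) = 1 + (n : WithBot ℕ∞) := by
    rw [MvPolynomial.ringKrullDim_of_isNoetherianRing,
      IsPrincipalIdealRing.ringKrullDim_eq_one ℤ Int.not_isField, Nat.card_eq_fintype_card,
      Fintype.card_fin]
  rw [h1, lt_succ_iff' _ (n + 1)]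
  refine h2.trans (h3.le.trans ?_)
  rw [add_comm]
  push_cast
  exact le_rfl

theorem negative_of (hJ : DeJong) (h0 : ∀ (d : ℕ) (X : Scheme.{0}), Arith d X → GenAt T X) :
    T.Negative := by
  intro X hX
  have h := of_affine' (R := ℤ) (sep := True) (P := fun X : Sch ℤ => GenAt T X.left) ?_ ?_ ?_
    (Over.mk (specZIsTerminal.from X)) (ft_arith hX)
  · exact h
  · rintro X Y _ ⟨e⟩ h i n hn
    exact fg_equiv (T.iso i n _ _ ((Over.forget _).mapIso e)) (h i n hn)
  · intro Z X U i j hX ht hZ hU q n hn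
    obtain ⟨a, b, c, h1, h2, h3⟩ := T.longSeq hn.le i.left j.left (arith_ft hX)
      ⟨ht.closed, ht.opened, ht.compl⟩
    exact fg_exact (a q) (b q) (h1 q) (hZ q n hn) (hU q n hn)
  · intro A _ _ _
    obtain ⟨D, hD⟩ := dim_finite A
    exact gen_dim T hJ h0 D _ (ft_aff True) hD

theorem bounded_of (hJ : DeJong) (h0 : ∀ (d : ℕ) (X : Scheme.{0}), Arith d X → VanAt T d X) :
    T.Bounded := by
  intro X hX D hD i n hn hi
  refine van_dim T hJ h0 (D + 1) (Over.mk (specZIsTerminal.from X)) (ft_arith hX) ?_ i n hn ?_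
  · rw [lt_succ_iff']
    exact hD
  · push_cast
    omega

/-- from weight `0` to all weights `n ≤ 0` -/
lemma van_of_vanish (h : T.Vanish) {d : ℕ} {X : Scheme.{0}} (hX : Arith d X) : VanAt T d X := by
  intro i n hn hi
  obtain ⟨k, hk⟩ : ∃ k : ℕ, (k : ℤ) = -n := ⟨(-n).toNat, by omega⟩
  have hP := T.proj d k X hX
  obtain ⟨c⟩ := T.compare (d + k) (ProjOver k X) hP (i + 2 * n) 0 le_rfl
  have h1 : Subsingleton (T.M (2 * ((d + k : ℕ) : ℤ) + (i + 2 * n)) (((d + k : ℕ) : ℤ) - 0)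
      (ProjOver k X)) :=
    subM_cast T (i := 2 * (d : ℤ) + i) (n := ((d + k : ℕ) : ℤ)) (by push_cast; omega) (by ring)
      (h (d + k) (ProjOver k X) hP _ (by omega))
  have h2 : Subsingleton (T.H (i + 2 * n) 0 (ProjOver k X)) := c.toEquiv.subsingleton
  have h3 := subH_factor T hX le_rfl h2 k le_rfl
  refine subH_cast T ?_ ?_ h3 <;> omega

theorem vanish_iff (hJ : DeJong) : T.Vanish ↔ T.Bounded := by
  constructor
  · intro h
    exact bounded_of T hJ fun d X hX => van_of_vanish T h hX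
  · intro h d X hX i hi
    obtain ⟨c⟩ := T.compare d X hX (i - 2 * d) 0 le_rfl
    have h1 := h X (arith_isArith hX) d (arith_dim hX) (i - 2 * d) 0 le_rfl (by omega)
    have h2 : Subsingleton (T.M (2 * (d : ℤ) + (i - 2 * d)) ((d : ℤ) - 0) X) :=
      c.symm.toEquiv.subsingleton
    exact subM_cast T (by ring) (by ring) h2

theorem all_of_part (hJ : DeJong) {W : ℕ → ℕ → Prop} (hW : ∀ e N : ℕ, ∃ d : ℕ, N ≤ d ∧ W d e)
    (h : T.Part W) : T.Q1 ∧ T.Negative ∧ T.Bounded := by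
  have h1 : ∀ (d : ℕ) (X : Scheme.{0}), Arith d X → VanAt T d X ∧ GenAt T X :=
    fun d X hX => arith_of_fg T hX fun i n hn hi => fg_of_part T hW h hX i n hn hi
  refine ⟨?_, negative_of T hJ fun d X hX => (h1 d X hX).2,
    bounded_of T hJ fun d X hX => (h1 d X hX).1⟩
  intro d X hX i hi
  have h2 := fg_of_part T hW h hX (i - 2 * d) 0 le_rfl (by omega)
  have h3 := fg_equiv (T.compare d X hX (i - 2 * d) 0 le_rfl) h2
  exact fgM_cast T (by ring) (by ring) h3

end

lemma window (f : ℕ → ℕ) (hf : ∀ N : ℕ, ∃ d : ℕ, N ≤ f d) (e N : ℕ) : ∃ d : ℕ, N ≤ d ∧ e ≤ f d := by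
  classical
  obtain ⟨d, hd⟩ := hf (e + ∑ j ∈ Finset.range N, f j + 1)
  refine ⟨d, ?_, by omega⟩
  by_contra hlt
  push Not at hlt
  have h1 : f d ≤ ∑ j ∈ Finset.range N, f j :=
    Finset.single_le_sum (f := f) (fun _ _ => Nat.zero_le _) (Finset.mem_range.mpr hlt)
  omega

end Pool.Agent.Run7.h30.EM
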